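import Mathlib
import Pool.Agent.W_MP_4d3d39_h25.Gen

/-!
Solutions of `x ^ x * y ^ y = z ^ z` in the range `4 * x * y < z ^ 2`: if `x * y / z ^ 2 = a / m`
in lowest terms, then `2 ≤ a` and `z` is bounded by an explicit function of `a` alone.
-/

set_option autoImplicit false

namespace Pool.Agent.Results.MP_4d3d39_nt.NumeratorBound

open Pool.Agent.W_MP_4d3d39_h25

/-- The numerator is determined. -/
theorem numerator_eq {x y z a m : ℕ} (hx : 0 < x) (hy : 0 < y) (hcop : Nat.Coprime a m)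
    (h : x * y * m = a * z ^ 2) : a = x * y / Nat.gcd (x * y) (z ^ 2) := by
  have hxy0 : 0 < x * y := by positivity
  have hG : 0 < Nat.gcd (x * y) (z ^ 2) := Nat.gcd_pos_of_pos_left _ hxy0
  have h1 : x * y / Nat.gcd (x * y) (z ^ 2) * Nat.gcd (x * y) (z ^ 2) = x * y :=
    Nat.div_mul_cancel (Nat.gcd_dvd_left _ _)
  have h2 : z ^ 2 / Nat.gcd (x * y) (z ^ 2) * Nat.gcd (x * y) (z ^ 2) = z ^ 2 :=
    Nat.div_mul_cancel (Nat.gcd_dvd_right _ _)
  have hc : Nat.Coprime (x * y / Nat.gcd (x * y) (z ^ 2)) (z ^ 2 / Nat.gcd (x * y) (z ^ 2)) :=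
    Nat.coprime_div_gcd_div_gcd hG
  generalize x * y / Nat.gcd (x * y) (z ^ 2) = a' at h1 hc
  generalize z ^ 2 / Nat.gcd (x * y) (z ^ 2) = m' at h2 hc
  generalize Nat.gcd (x * y) (z ^ 2) = G at hG h1 h2
  have h3 : a' * m = a * m' := by
    apply Nat.eq_of_mul_eq_mul_left hG
    calc G * (a' * m) = a' * G * m := by ring
      _ = a * z ^ 2 := by rw [h1, h]
      _ = G * (a * m') := by rw [← h2]; ring
  apply Nat.dvd_antisymm
  · have : a ∣ a' * m := ⟨m', h3⟩
    exact hcop.dvd_of_dvd_mul_right this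
  · have : a' ∣ a * m' := ⟨m, h3.symm⟩
    exact hc.dvd_of_dvd_mul_right this

theorem ordered {x y z a m : ℕ} (hx : 1 < x) (hxy : x ≤ y) (heq : x ^ x * y ^ y = z ^ z)
    (hcop : Nat.Coprime a m) (h : x * y * m = a * z ^ 2) (h4 : 4 * a < m) :
    2 ≤ a ∧ z ≤ (8 * a * (5 * a) ^ (9 * a)) ^ (8 * a * (5 * a) ^ (9 * a)) := by
  have hxy0 : 0 < x * y := by
    have : 0 < x := by omega
    have : 0 < y := by omega
    positivity
  have ha := numerator_eq (by omega) (by omega) hcop h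
  have hlt : 4 * (x * y) < z ^ 2 := by
    have ha0 : 0 < a := by
      rcases Nat.eq_zero_or_pos a with h0 | h0
      · subst h0
        have : 0 < x * y * m := Nat.mul_pos hxy0 (by omega)
        omega
      · exact h0
    have e1 : a * (4 * (x * y)) < a * z ^ 2 := by
      calc a * (4 * (x * y)) = x * y * (4 * a) := by ring
        _ < x * y * m := Nat.mul_lt_mul_of_pos_left h4 hxy0
        _ = a * z ^ 2 := h
    exact Nat.lt_of_mul_lt_mul_left e1
  obtain ⟨-, -, h3, h5⟩ := main_bounds hx hxy heq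
  obtain ⟨h6, h7⟩ := h5 hlt
  rw [← ha] at h3 h6 h7
  refine ⟨h6, ?_⟩
  have h8 : 8 * a * (y / Nat.gcd y z) ^ 3 ≤ 8 * a * (5 * a) ^ (9 * a) := by
    apply Nat.mul_le_mul_left
    calc (y / Nat.gcd y z) ^ 3 ≤ ((5 * a) ^ (3 * a)) ^ 3 := Nat.pow_le_pow_left h7 3
      _ = (5 * a) ^ (9 * a) := by rw [← pow_mul]; congr 1; ring
  calc z ≤ _ := h3
    _ ≤ (8 * a * (5 * a) ^ (9 * a)) ^ (8 * a * (y / Nat.gcd y z) ^ 3) :=
        Nat.pow_le_pow_left h8 _
    _ ≤ _ := Nat.pow_le_pow_right (by positivity) h8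

/-- If `x, y > 1`, `x ^ x * y ^ y = z ^ z` and `x * y / z ^ 2 = a / m < 1 / 4` in lowest terms,
then `2 ≤ a` and `z` is at most an explicit function of `a`. -/
theorem result : ∀ x y z a m : ℕ, 1 < x → 1 < y → x ^ x * y ^ y = z ^ z →
    Nat.Coprime a m → x * y * m = a * z ^ 2 → 4 * a < m →
    2 ≤ a ∧ z ≤ (8 * a * (5 * a) ^ (9 * a)) ^ (8 * a * (5 * a) ^ (9 * a)) := by
  intro x y z a m hx hy heq hcop h h4
  rcases Nat.le_total x y with hxy | hxy
  · exact ordered hx hxy heq hcop h h4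
  · exact ordered hy hxy (by rw [mul_comm]; exact heq) hcop (by rw [mul_comm y x]; exact h) h4

end Pool.Agent.Results.MP_4d3d39_nt.NumeratorBound
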