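import Mathlib
import Pool.Agent.W_MP_4d3d39_h25.Gen

/-!
Solutions of `x ^ x * y ^ y = z ^ z` with `1 < x ≤ y`: if `y / z = Y / P` in lowest terms, then
`z` is bounded by an explicit function of `Y` alone.
-/

set_option autoImplicit false

namespace Pool.Agent.Results.MP_4d3d39_nt.RatioBound

open Pool.Agent.W_MP_4d3d39_h25

/-- If `1 < x ≤ y`, `x ^ x * y ^ y = z ^ z` and `y / z = Y / P` in lowest terms, then `z` is at
most an explicit function of `Y`. -/
theorem result : ∀ x y z Y P : ℕ, 1 < x → x ≤ y → x ^ x * y ^ y = z ^ z →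
    Nat.Coprime Y P → y * P = Y * z →
    z ≤ (8 * (2 * Y) ^ Y * Y ^ 3) ^ (8 * (2 * Y) ^ Y * Y ^ 3) := by
  intro x y z Y P hx hxy heq hcop h
  have hy0 : 0 < y := by omega
  have hG : 0 < Nat.gcd y z := Nat.gcd_pos_of_pos_left _ hy0
  have hYe : Y = y / Nat.gcd y z := by
    have h1 : y / Nat.gcd y z * Nat.gcd y z = y := Nat.div_mul_cancel (Nat.gcd_dvd_left _ _)
    have h2 : z / Nat.gcd y z * Nat.gcd y z = z := Nat.div_mul_cancel (Nat.gcd_dvd_right _ _)
    have hc : Nat.Coprime (y / Nat.gcd y z) (z / Nat.gcd y z) := Nat.coprime_div_gcd_div_gcd hG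
    generalize y / Nat.gcd y z = a' at h1 hc
    generalize z / Nat.gcd y z = m' at h2 hc
    generalize Nat.gcd y z = G at hG h1 h2
    have h3 : a' * P = Y * m' := by
      apply Nat.eq_of_mul_eq_mul_left hG
      calc G * (a' * P) = a' * G * P := by ring
        _ = Y * z := by rw [h1, h]
        _ = G * (Y * m') := by rw [← h2]; ring
    apply Nat.dvd_antisymm
    · have : Y ∣ a' * P := ⟨m', h3⟩
      exact hcop.dvd_of_dvd_mul_right this
    · have : a' ∣ Y * m' := ⟨P, h3.symm⟩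
      exact hc.dvd_of_dvd_mul_right this
  obtain ⟨-, h1, h3, -⟩ := main_bounds hx hxy heq
  rw [← hYe] at h1 h3
  have hY0 : 0 < Y := by
    rw [hYe]
    exact Nat.div_pos (Nat.le_of_dvd hy0 (Nat.gcd_dvd_left _ _)) hG
  generalize x * y / Nat.gcd (x * y) (z ^ 2) = a at h1 h3
  have h8 : 8 * a * Y ^ 3 ≤ 8 * (2 * Y) ^ Y * Y ^ 3 :=
    Nat.mul_le_mul_right _ (Nat.mul_le_mul_left _ h1)
  calc z ≤ _ := h3
    _ ≤ (8 * (2 * Y) ^ Y * Y ^ 3) ^ (8 * a * Y ^ 3) := Nat.pow_le_pow_left h8 _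
    _ ≤ _ := Nat.pow_le_pow_right (by positivity) h8

end Pool.Agent.Results.MP_4d3d39_nt.RatioBound
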