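import Mathlib
import Pool.Agent.W_4d3d39_h4.E
import Pool.Agent.W_4d3d39_h4.Ko
import Pool.Agent.W_4d3d39_h43.Tr

/-!
The nontrivial solutions of `x ^ x * y ^ y = z ^ z` outside Ko's family have extremely small
radical: for every `d > 0`, all but finitely many of them satisfy `rad z < (log z) ^ d`.
-/

set_option autoImplicit false

namespace Pool.Agent.Results.MP_4d3d39_nt.SmallRadical

/-- The solution `(x, y, z)` is of Ko type: up to exchanging `x` and `y` it is Ko's triple with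
some index `n ≥ 2`. -/
def KoType (x y z : ℕ) : Prop :=
  ∃ n : ℕ, 2 ≤ n ∧
    ((x = 2 ^ (2 ^ (n + 1) * (2 ^ n - n - 1) + 2 * n) * (2 ^ n - 1) ^ (2 * (2 ^ n - 1)) ∧
      y = 2 ^ (2 ^ (n + 1) * (2 ^ n - n - 1)) * (2 ^ n - 1) ^ (2 * (2 ^ n - 1) + 2)) ∨
     (y = 2 ^ (2 ^ (n + 1) * (2 ^ n - n - 1) + 2 * n) * (2 ^ n - 1) ^ (2 * (2 ^ n - 1)) ∧
      x = 2 ^ (2 ^ (n + 1) * (2 ^ n - n - 1)) * (2 ^ n - 1) ^ (2 * (2 ^ n - 1) + 2))) ∧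
    z = 2 ^ (2 ^ (n + 1) * (2 ^ n - n - 1) + n + 1) * (2 ^ n - 1) ^ (2 * (2 ^ n - 1) + 1)

/-- For every `d > 0` there are only finitely many triples `(x, y, z)` with `x, y ≥ 2` and
`x ^ x * y ^ y = z ^ z` that are not of Ko type and satisfy `rad z ≥ (log z) ^ d`. -/
theorem result :
    ∀ d : ℝ, 0 < d →
      {v : ℕ × ℕ × ℕ | 2 ≤ v.1 ∧ 2 ≤ v.2.1 ∧ v.1 ^ v.1 * v.2.1 ^ v.2.1 = v.2.2 ^ v.2.2 ∧
        ¬ KoType v.1 v.2.1 v.2.2 ∧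
        Real.log v.2.2 ^ d ≤ ∏ p ∈ v.2.2.primeFactors, (p : ℝ)}.Finite := by
  intro d hd
  refine (XYZ4.small_rad_xyz XYZ4.core d hd).subset ?_
  rintro ⟨x, y, z⟩ ⟨hx, hy, heq, hko, hrad⟩
  refine ⟨hx, hy, heq, ?_, hrad⟩
  intro h4
  apply hko
  simp only at hx hy heq h4 ⊢
  obtain ⟨a, b, c, k, g, h, rfl, rfl, rfl⟩ := XYZ4.exists_prim hx hy heq
  refine h.ko ?_
  have hg : 0 < g ^ 2 := pow_pos h.hg 2
  have h1 : g ^ 2 * (4 * (a * b)) = g ^ 2 * c ^ 2 := by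
    calc g ^ 2 * (4 * (a * b)) = 4 * ((a * g) * (b * g)) := by ring
      _ = (c * g) ^ 2 := h4
      _ = g ^ 2 * c ^ 2 := by ring
  exact Nat.eq_of_mul_eq_mul_left hg h1

end Pool.Agent.Results.MP_4d3d39_nt.SmallRadical
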