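import Mathlib
import Pool.Agent.W_4d3d39_h43.Sq3

/-!
The nontrivial solutions of `x ^ x * y ^ y = z ^ z` are sparse.
-/

set_option autoImplicit false

namespace Pool.Agent.Results.MP_4d3d39_nt.SparseSolutions

/-- There is a constant `C` such that for all `Z ≥ 16` the number of nontrivial solutions of
`x ^ x * y ^ y = z ^ z` with `z ≤ Z` is finite and at most `exp (C * sqrt (log (log Z)))`. -/
theorem result :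
    ∃ C : ℝ, ∀ Z : ℕ, 16 ≤ Z →
      {v : ℕ × ℕ × ℕ | 2 ≤ v.1 ∧ 2 ≤ v.2.1 ∧ v.2.2 ≤ Z ∧
        v.1 ^ v.1 * v.2.1 ^ v.2.1 = v.2.2 ^ v.2.2}.Finite ∧
      ({v : ℕ × ℕ × ℕ | 2 ≤ v.1 ∧ 2 ≤ v.2.1 ∧ v.2.2 ≤ Z ∧
        v.1 ^ v.1 * v.2.1 ^ v.2.1 = v.2.2 ^ v.2.2}.ncard : ℝ) ≤
      Real.exp (C * Real.sqrt (Real.log (Real.log Z))) := by
  obtain ⟨C, hC⟩ := Pool.Agent.W_4d3d39_h43.count_sqrt
  refine ⟨C, fun Z hZ => ?_⟩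
  have hset : {v : ℕ × ℕ × ℕ | 2 ≤ v.1 ∧ 2 ≤ v.2.1 ∧ v.2.2 ≤ Z ∧
      v.1 ^ v.1 * v.2.1 ^ v.2.1 = v.2.2 ^ v.2.2} =
      ((Pool.Agent.W_4d3d39_h43.Sols Z : Finset (ℕ × ℕ × ℕ)) : Set (ℕ × ℕ × ℕ)) := by
    ext v
    rw [Set.mem_ofPred_eq, Finset.mem_coe, Pool.Agent.W_4d3d39_h43.Sols, Finset.mem_filter,
      Finset.mem_product, Finset.mem_product, Finset.mem_Icc, Finset.mem_Icc, Finset.mem_Icc]
    constructor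
    · rintro ⟨h1, h2, h3, h4⟩
      have h5 := Pool.Agent.W_MP_4d3d39_h25.basic (by omega : 1 < v.1) (by omega : 1 < v.2.1) h4
      exact ⟨⟨⟨h1, by omega⟩, ⟨h2, by omega⟩, ⟨by omega, h3⟩⟩, h4⟩
    · rintro ⟨⟨⟨h1, _⟩, ⟨h2, _⟩, ⟨_, h3⟩⟩, h4⟩
      exact ⟨h1, h2, h3, h4⟩
  rw [hset]
  refine ⟨Finset.finite_toSet _, ?_⟩
  rw [Set.ncard_coe_finset]
  exact hC Z hZ

end Pool.Agent.Results.MP_4d3d39_nt.SparseSolutions
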